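import Pool.Agent.X231.DF.Comb
import Pool.Agent.Y777.AM.Dir

/-!
# Algebraic independence, up to exponential height, of the multiple zeta values with dominant first argument
-/

set_option autoImplicit false

namespace Pool.Agent.X231.DF

open Finset Filter Topology Pool.Agent.Y760.ZG Pool.Agent.Y760.ZF Pool.Agent.TH883.Zg Pool.Agent.Y777.AM
open Pool.Agent.Y777.AM.St (lst mem_lst length_lst prod_lst Om mem_Om Om_le aeval_sum)

lemma count_lst {k : ℕ} {w : Fin k → List ℕ} (hw : Function.Injective w) (m : Fin k → ℕ) (i : Fin k) :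
    (lst w m).count (w i) = m i := by
  classical
  rw [lst]
  have h1 : ∀ L : List (Fin k), (L.flatMap fun i => List.replicate (m i) (w i)).count (w i) =
      (L.map fun j => if j = i then m i else 0).sum := by
    intro L
    induction L with
    | nil => simp
    | cons a L ih =>
      rw [List.flatMap_cons, List.count_append, ih, List.map_cons, List.sum_cons]
      congr 1
      by_cases h : a = i
      · subst h
        rw [if_pos rfl, List.count_replicate_self]
      · rw [if_neg h, List.count_replicate, if_neg]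
        rw [beq_iff_eq]
        exact fun h2 => h (hw h2)
  rw [h1, ← Fin.sum_univ_def]
  simp

/-- the coefficients of a polynomial whose stuffle expansion vanishes -/
theorem coeff_zero {k : ℕ} {w : Fin k → List ℕ} (hw : Function.Injective w) (hD : ∀ i, Dom (w i))
    (D : ℕ) (f : (Fin k →₀ ℕ) → ℤ)
    (h0 : ∀ v, ∑ m ∈ Om k D, f m * ((stil (lst w m)).countP (· = v) : ℤ) = 0) :
    ∀ m ∈ Om k D, f m = 0 := by
  classical
  have hinj : Function.Injective fun m : Fin k →₀ ℕ => lst w m := by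
    intro m m' h
    ext i
    have h1 := count_lst hw m i
    have h2 := count_lst hw m' i
    have h3 : lst w m = lst w m' := h
    rw [← h1, ← h2, h3]
  set T : Finset (List (List ℕ)) := (Om k D).image (fun m : Fin k →₀ ℕ => lst w m) with hT
  set c : List (List ℕ) → ℤ := fun M => ∑ m ∈ (Om k D).filter (fun m : Fin k →₀ ℕ => lst w m = M), f m with hc
  have hcm : ∀ m ∈ Om k D, c (lst w m) = f m := by
    intro m hm
    rw [hc]
    simp only
    refine sum_eq_single_of_mem m (mem_filter.2 ⟨hm, rfl⟩) ?_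
    intro m' hm' hne
    exact absurd (hinj (mem_filter.1 hm').2) hne
  have key := indep T (by
      intro M hM u hu
      obtain ⟨m, -, rfl⟩ := mem_image.1 hM
      obtain ⟨i, rfl⟩ := mem_lst hu
      exact hD i) (by
      intro M hM N hN hp
      obtain ⟨m, -, rfl⟩ := mem_image.1 hM
      obtain ⟨m', -, rfl⟩ := mem_image.1 hN
      have : m = m' := by
        ext i
        rw [← count_lst hw m i, ← count_lst hw m' i]
        exact hp.count_eq _
      rw [this]) c (by
      intro v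
      rw [hT, sum_image (fun m _ m' _ h => hinj h), ← h0 v]
      exact sum_congr rfl fun m hm => by rw [hcm m hm])
  intro m hm
  rw [← hcm m hm]
  exact key _ (mem_image_of_mem (fun m : Fin k →₀ ℕ => lst w m) hm)

/-- **the measure** -/
theorem measure {l : ℕ} (β : Fin l → ℝ) (hβ : ∀ j, IsAlgebraic ℚ (β j))
    (hli : LinearIndependent ℚ β) (k r D : ℕ) (κ C : ℝ) :
    ∃ B : ℝ, 1 < B ∧ ∃ n0 : ℕ, ∀ n : ℕ, n0 ≤ n → ∀ w : Fin k → List ℕ, Function.Injective w →
      (∀ i, Dom (w i) ∧ Cl n (κ * n) r (w i)) → ∀ f : Fin l → MvPolynomial (Fin k) ℤ,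
      (∀ j, ∀ m ∈ (f j).support, ∀ i, m i ≤ D) → (∀ j m, |(((f j).coeff m : ℤ) : ℝ)| ≤ C ^ n) →
      (∃ j, f j ≠ 0) →
      (B ^ n)⁻¹ < |∑ j, β j * MvPolynomial.aeval (fun i => mz (w i)) (f j)| := by
  classical
  set S : ℕ := (Om k D).card with hS
  obtain ⟨B, hB, n0, hmain⟩ := mainM β hβ hli S r (k * D) κ ((S + 1) * |C|)
  refine ⟨B, hB, n0 + k * D * r + 2, fun n hn w hwi hw f hf hC hne => ?_⟩
  by_contra hv
  rw [not_lt] at hv
  have hlen : ∀ m ∈ Om k D, (lst w m).length ≤ k * D := by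
    intro m hm
    rw [length_lst]
    calc ∑ i, m i ≤ ∑ _i : Fin k, D := sum_le_sum fun i _ => Om_le hm i
      _ = k * D := by rw [sum_const, Finset.card_univ, Fintype.card_fin, smul_eq_mul]
  set lw : (Fin k →₀ ℕ) → List (List ℕ) := fun m => lst w m with hlw
  set T : Finset (List (List ℕ)) := (Om k D).image lw with hT
  set c : List (List ℕ) → Fin l → ℤ := fun M j =>
    ∑ m ∈ Om k D with lw m = M, (f j).coeff m with hc
  have h1 := hmain n (by omega) T card_image_le (by
      intro M hM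
      obtain ⟨m, hm, rfl⟩ := mem_image.1 hM
      refine ⟨hlen m hm, fun u hu => ?_⟩
      obtain ⟨i, rfl⟩ := mem_lst hu
      exact (hw i).2) c (by
      intro M _ j
      rw [hc]
      push_cast
      have hn1 : 1 ≤ n := by omega
      calc |∑ m ∈ Om k D with lw m = M, (((f j).coeff m : ℤ) : ℝ)| ≤
          ∑ m ∈ Om k D with lw m = M, |C| ^ n := by
            refine (abs_sum_le_sum_abs _ _).trans (sum_le_sum fun m _ => ?_)
            exact (hC j m).trans ((le_abs_self _).trans (abs_pow _ _).le)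
        _ = ((Om k D).filter fun m => lw m = M).card * |C| ^ n := by
            rw [sum_const, nsmul_eq_mul]
        _ ≤ (S + 1) * |C| ^ n := by
            refine mul_le_mul_of_nonneg_right ?_ (by positivity)
            have : (((Om k D).filter fun m => lw m = M).card : ℝ) ≤ S := by
              exact_mod_cast card_filter_le _ _
            linarith only [this]
        _ ≤ (S + 1) ^ n * |C| ^ n := by
            refine mul_le_mul_of_nonneg_right ?_ (by positivity)
            exact le_self_pow₀ (by have : (0 : ℝ) ≤ S := Nat.cast_nonneg _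
                                   linarith only [this]) (by omega)
        _ = ((S + 1) * |C|) ^ n := by rw [mul_pow])
  -- the value
  have hval : ∑ M ∈ T, (∑ j, β j * c M j) * (M.map mz).prod =
      ∑ j, β j * MvPolynomial.aeval (fun i => mz (w i)) (f j) := by
    have e1 : ∀ j, MvPolynomial.aeval (fun i => mz (w i)) (f j) =
        ∑ M ∈ T, (c M j : ℝ) * (M.map mz).prod := by
      intro j
      rw [aeval_sum D (f j) (hf j)]
      have e2 : ∀ m ∈ Om k D, (((f j).coeff m : ℤ) : ℝ) * ∏ i, mz (w i) ^ m i =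
          (((f j).coeff m : ℤ) : ℝ) * ((lw m).map mz).prod := fun m _ => by rw [hlw, prod_lst]
      rw [sum_congr rfl e2, ← sum_fiberwise_of_maps_to (s := Om k D) (t := T)
        (g := lw) (fun m hm => mem_image_of_mem _ hm)]
      refine sum_congr rfl fun M _ => ?_
      rw [hc]
      push_cast
      rw [sum_mul]
      refine sum_congr rfl fun m hm => ?_
      rw [(mem_filter.1 hm).2]
    have e3 : ∀ j, β j * MvPolynomial.aeval (fun i => mz (w i)) (f j) =
        ∑ M ∈ T, β j * ((c M j : ℝ) * (M.map mz).prod) := fun j => by rw [e1 j, mul_sum]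
    rw [sum_congr rfl fun j _ => e3 j, sum_comm]
    refine sum_congr rfl fun M _ => ?_
    rw [sum_mul]
    refine sum_congr rfl fun j _ => ?_
    ring
  rw [hval] at h1
  have h2 : ∀ v j, co T c v j = 0 := by
    rcases h1 with h1 | h1
    · exact h1.1
    · exact absurd hv (not_le.2 h1)
  have h3 : ∀ j v, ∑ m ∈ Om k D, (f j).coeff m * ((stil (lst w m)).countP (· = v) : ℤ) = 0 := by
    intro j v
    rw [← h2 v j, co, ← sum_fiberwise_of_maps_to (s := Om k D) (t := T)
      (g := lw) (fun m hm => mem_image_of_mem _ hm)]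
    refine sum_congr rfl fun M _ => ?_
    rw [hc]
    simp only
    rw [sum_mul]
    refine sum_congr rfl fun m hm => ?_
    rw [← (mem_filter.1 hm).2]
  obtain ⟨j, hj⟩ := hne
  apply hj
  have h4 := coeff_zero hwi (fun i => (hw i).1) D (fun m => (f j).coeff m) (h3 j)
  ext m
  rw [MvPolynomial.coeff_zero]
  by_contra hm
  exact hm (h4 m (mem_Om (hf j m (MvPolynomial.mem_support_iff.2 hm))))

/-- **the measure, modulo arbitrarily many values of large height** -/
theorem measureH {l : ℕ} (β : Fin l → ℝ) (hβ : ∀ j, IsAlgebraic ℚ (β j))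
    (hli : LinearIndependent ℚ β) (k r D : ℕ) (κ C ε : ℝ) (hε : 0 < ε) :
    ∃ B : ℝ, 1 < B ∧ ∃ n0 : ℕ, ∀ n : ℕ, n0 ≤ n → ∀ w : Fin k → List ℕ, Function.Injective w →
      (∀ i, Dom (w i) ∧ Cl n (κ * n) r (w i)) → ∀ f : Fin l → MvPolynomial (Fin k) ℤ,
      (∀ j, ∀ m ∈ (f j).support, ∀ i, m i ≤ D) → (∀ j m, |(((f j).coeff m : ℤ) : ℝ)| ≤ C ^ n) →
      (∃ j, f j ≠ 0) →
      ∀ H : Finset (List ℕ), (∀ h ∈ H, h ≠ [] ∧ (∀ m ∈ h, 1 ≤ m) ∧ (∀ k ∈ h.head?, 2 ≤ k) ∧
        (h.sum : ℝ) ≤ κ * n ∧ ε * n ≤ ht h) → ∀ b : List ℕ → ℝ, (∀ h ∈ H, |b h| ≤ C ^ n) →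
      (B ^ n)⁻¹ < |∑ j, β j * MvPolynomial.aeval (fun i => mz (w i)) (f j) - ∑ h ∈ H, b h * mz h| := by
  classical
  obtain ⟨B, hB, n0, hmain⟩ := measure β hβ hli k r D κ C
  set Q : ℕ := ⌈κ⌉₊ with hQ
  set C' : ℝ := max (max |C| 1) (2 ^ Q) with hC'
  have hC1 : 1 ≤ C' := (le_max_right _ _).trans (le_max_left _ _)
  obtain ⟨n1, h2⟩ := small ε C' B Q hε hC1 hB
  refine ⟨2 * B, by linarith only [hB], max (max n0 n1) 1, ?_⟩
  intro n hn w hwi hw f hf hC hne H hH b hb
  have hn0 : n0 ≤ n := (le_max_left _ _).trans ((le_max_left _ _).trans hn)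
  have hn1 : n1 ≤ n := (le_max_right _ _).trans ((le_max_left _ _).trans hn)
  have hn2 : 1 ≤ n := (le_max_right _ _).trans hn
  have h1 := hmain n hn0 w hwi hw f hf hC hne
  have h4 := h2 n hn1 H (by
    have hHQ : ∀ h ∈ H, h.sum ≤ Q * n := by
      intro h hh
      have h5 : (h.sum : ℝ) ≤ Q * n := (hH h hh).2.2.2.1.trans
        (mul_le_mul_of_nonneg_right (Nat.le_ceil κ) (Nat.cast_nonneg _))
      exact_mod_cast h5
    have h5 := card_words H (Q * n) (fun h hh => ⟨(hH h hh).2.1, hHQ h hh⟩)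
    calc (H.card : ℝ) ≤ ((2 ^ (Q * n) : ℕ) : ℝ) := by exact_mod_cast h5
      _ = (2 ^ Q) ^ n := by rw [← pow_mul]; push_cast; rfl
      _ ≤ C' ^ n := pow_le_pow_left₀ (by positivity) (le_max_right _ _) _) (by
    intro h hh
    obtain ⟨e1, e2, e3, e4, e5⟩ := hH h hh
    refine ⟨e1, e2, e3, ?_, e5⟩
    have h5 : (h.sum : ℝ) ≤ Q * n := e4.trans
        (mul_le_mul_of_nonneg_right (Nat.le_ceil κ) (Nat.cast_nonneg _))
    have h6 : h.sum ≤ Q * n := by exact_mod_cast h5
    exact (List.length_le_sum_of_one_le h e2).trans h6) b (by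
    intro h hh
    refine (hb h hh).trans ((le_abs_self _).trans ?_)
    rw [abs_pow]
    exact pow_le_pow_left₀ (abs_nonneg _) ((le_max_left _ _).trans (le_max_left _ _)) _)
  have h7 : ((2 * B) ^ n)⁻¹ ≤ (B ^ n)⁻¹ / 2 := by
    rw [mul_pow, mul_inv]
    have h8 : (2 : ℝ) ≤ 2 ^ n := by
      calc (2 : ℝ) = 2 ^ 1 := (pow_one _).symm
        _ ≤ 2 ^ n := pow_le_pow_right₀ one_le_two (by omega)
    have h9 : ((2 : ℝ) ^ n)⁻¹ ≤ 1 / 2 := by
      rw [one_div]
      exact inv_anti₀ two_pos h8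
    have hBn : 0 < B ^ n := by positivity
    calc ((2 : ℝ) ^ n)⁻¹ * (B ^ n)⁻¹ ≤ 1 / 2 * (B ^ n)⁻¹ :=
          mul_le_mul_of_nonneg_right h9 (by positivity)
      _ = _ := by ring
  refine lt_of_le_of_lt h7 ?_
  have h10 := abs_sub_abs_le_abs_sub (∑ j, β j * MvPolynomial.aeval (fun i => mz (w i)) (f j))
    (∑ h ∈ H, b h * mz h)
  linarith only [h1, h4, h10]

end Pool.Agent.X231.DF
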