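import Pool.Agent.Y777.AM.St

/-!
# Products of words whose first letter is larger than the other letters

The stuffle products of different multisets of words with dominant first letter are linearly independent.
-/

set_option autoImplicit false

namespace Pool.Agent.X231.DF

open Pool.Agent.Y760.ZF

/-- the word `s` is a shuffle of the words of the multiset -/
def Shuf : List ℕ → Multiset (List ℕ) → Prop
  | [], M => ∀ w ∈ M, w = []
  | c :: s, M => ∃ (t : List ℕ) (M' : Multiset (List ℕ)), M = (c :: t) ::ₘ M' ∧ Shuf s (t ::ₘ M')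

lemma shuf_nil_cons : ∀ (s : List ℕ) (M : Multiset (List ℕ)), Shuf s M → Shuf s ([] ::ₘ M) := by
  intro s
  induction s with
  | nil =>
    intro M h w hw
    rcases Multiset.mem_cons.1 hw with h1 | h1
    · exact h1
    · exact h w h1
  | cons c s ih =>
    rintro M ⟨t, M', rfl, h⟩
    refine ⟨t, [] ::ₘ M', Multiset.cons_swap _ _ _, ?_⟩
    rw [Multiset.cons_swap]
    exact ih _ h

lemma shuf_of_nil_cons : ∀ (s : List ℕ) (M : Multiset (List ℕ)), Shuf s ([] ::ₘ M) → Shuf s M := by
  intro s
  induction s with
  | nil => exact fun M h w hw => h w (Multiset.mem_cons_of_mem hw)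
  | cons c s ih =>
    rintro M ⟨t, M', h1, h⟩
    rcases Multiset.cons_eq_cons.1 h1 with ⟨h2, -⟩ | ⟨-, N, h3, h4⟩
    · exact absurd h2 (by simp)
    · refine ⟨t, N, h3, ?_⟩
      rw [h4, Multiset.cons_swap] at h
      exact ih _ h

lemma shuf_single (u : List ℕ) (M : Multiset (List ℕ)) (hM : ∀ w ∈ M, w = []) : Shuf u (u ::ₘ M) := by
  induction u with
  | nil =>
    intro w hw
    rcases Multiset.mem_cons.1 hw with h1 | h1
    · exact h1
    · exact hM w h1
  | cons c u ih => exact ⟨u, M, rfl, ih⟩

lemma shuf_append (l : List ℕ) {s : List ℕ} {M : Multiset (List ℕ)} (h : Shuf s M) :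
    Shuf (l ++ s) (l ::ₘ M) := by
  induction l with
  | nil => exact shuf_nil_cons s M h
  | cons c l ih => exact ⟨l, M, rfl, ih⟩

lemma shuf_flatten (L : List (List ℕ)) : Shuf L.flatten (L : Multiset (List ℕ)) := by
  induction L with
  | nil => exact fun w hw => absurd hw (by simp)
  | cons l L ih => exact shuf_append l ih

lemma shuf_of_sti (u v : List ℕ) : ∀ s ∈ sti u v, s.length = u.length + v.length →
    ∀ M : Multiset (List ℕ), Shuf v M → Shuf s (u ::ₘ M) := by
  induction u, v using sti.induct with
  | case1 v =>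
    intro s hs _ M hM
    rw [sti, List.mem_singleton] at hs
    rw [hs]
    exact shuf_nil_cons v M hM
  | case2 i k =>
    intro s hs _ M hM
    rw [sti, List.mem_singleton] at hs
    rw [hs]
    exact shuf_single _ M hM
  | case3 i k j l ih1 ih2 ih3 =>
    intro s hs hlen M hM
    rw [sti, List.mem_append, List.mem_append, List.mem_map, List.mem_map, List.mem_map] at hs
    rcases hs with (⟨w', hw', rfl⟩ | ⟨w', hw', rfl⟩) | ⟨w', hw', rfl⟩
    · refine ⟨k, M, rfl, ih1 w' hw' ?_ M hM⟩
      simp only [List.length_cons] at hlen ⊢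
      omega
    · obtain ⟨t, M', rfl, hM'⟩ := hM
      refine ⟨t, (i :: k) ::ₘ M', Multiset.cons_swap _ _ _, ?_⟩
      rw [Multiset.cons_swap]
      refine ih2 w' hw' ?_ _ hM'
      simp only [List.length_cons] at hlen ⊢
      omega
    · have h1 := sti_length k l w' hw'
      simp only [List.length_cons] at hlen
      omega

lemma stil_length (M : List (List ℕ)) : ∀ s ∈ stil M, s.length ≤ (M.map List.length).sum := by
  induction M with
  | nil =>
    intro s hs
    rw [stil, List.mem_singleton] at hs
    simp [hs]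
  | cons u M ih =>
    intro s hs
    rw [stil, List.mem_flatMap] at hs
    obtain ⟨v, hv, hs⟩ := hs
    have h1 := sti_length u v s hs
    have h2 := ih v hv
    rw [List.map_cons, List.sum_cons]
    omega

lemma shuf_of_stil (M : List (List ℕ)) : ∀ s ∈ stil M, s.length = (M.map List.length).sum →
    Shuf s (M : Multiset (List ℕ)) := by
  induction M with
  | nil =>
    intro s hs _
    rw [stil, List.mem_singleton] at hs
    rw [hs]
    exact fun w hw => absurd hw (by simp)
  | cons u M ih =>
    intro s hs hlen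
    rw [stil, List.mem_flatMap] at hs
    obtain ⟨v, hv, hs⟩ := hs
    have h1 := sti_length u v s hs
    have h2 := stil_length M v hv
    rw [List.map_cons, List.sum_cons] at hlen
    exact shuf_of_sti u v s hs (by omega) _ (ih v hv (by omega))

lemma sti_nil_right (u : List ℕ) : sti u [] = [u] := by
  cases u with
  | nil => rw [sti]
  | cons a u => rw [sti]

lemma sti_of_shuf : ∀ (s u : List ℕ) (M : Multiset (List ℕ)), Shuf s (u ::ₘ M) →
    ∃ v, Shuf v M ∧ s ∈ sti u v := by
  intro s
  induction s with
  | nil =>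
    intro u M h
    refine ⟨[], fun w hw => h w (Multiset.mem_cons_of_mem hw), ?_⟩
    rw [h u (Multiset.mem_cons_self _ _), sti]
    simp
  | cons c s ih =>
    rintro u M ⟨t, M', h1, h⟩
    rcases Multiset.cons_eq_cons.1 h1 with ⟨h2, h3⟩ | ⟨-, N, h3, h4⟩
    · subst h2
      subst h3
      obtain ⟨v, hv, hs⟩ := ih t M h
      refine ⟨v, hv, ?_⟩
      cases v with
      | nil =>
        rw [sti_nil_right, List.mem_singleton] at hs
        rw [sti_nil_right, List.mem_singleton, hs]
      | cons j v =>
        rw [sti, List.mem_append, List.mem_append, List.mem_map]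
        exact Or.inl (Or.inl ⟨s, hs, rfl⟩)
    · rw [h4, Multiset.cons_swap] at h
      obtain ⟨v, hv, hs⟩ := ih u _ h
      refine ⟨c :: v, ⟨t, N, h3, hv⟩, ?_⟩
      cases u with
      | nil =>
        rw [sti, List.mem_singleton] at hs
        rw [sti, List.mem_singleton, hs]
      | cons x u =>
        rw [sti, List.mem_append, List.mem_append, List.mem_map, List.mem_map]
        exact Or.inl (Or.inr ⟨s, hs, rfl⟩)

lemma stil_of_shuf (M : List (List ℕ)) : ∀ s, Shuf s (M : Multiset (List ℕ)) → s ∈ stil M := by
  induction M with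
  | nil =>
    intro s hs
    rw [stil, List.mem_singleton]
    cases s with
    | nil => rfl
    | cons c s =>
      obtain ⟨t, M', h1, -⟩ := hs
      exact absurd h1.symm (Multiset.cons_ne_zero)
  | cons u M ih =>
    intro s hs
    obtain ⟨v, hv, hs⟩ := sti_of_shuf s u (M : Multiset (List ℕ)) hs
    rw [stil, List.mem_flatMap]
    exact ⟨v, ih v hv, hs⟩

/-- nonempty words whose first letter is larger than all others -/
def Dom : List ℕ → Prop
  | [] => False
  | h :: t => ∀ x ∈ t, x < h

lemma Dom.ne {w : List ℕ} (h : Dom w) : w ≠ [] := by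
  rintro rfl
  exact h

lemma block : ∀ (t : List ℕ) (M : Multiset (List ℕ)) (s : List ℕ), Shuf s (t ::ₘ M) →
    (∃ s', s = t ++ s' ∧ Shuf s' M) ∨
      ∃ p y r x q s'', t = p ++ y :: r ∧ s = p ++ x :: s'' ∧ (x :: q) ∈ M := by
  intro t
  induction t with
  | nil => exact fun M s h => Or.inl ⟨s, rfl, shuf_of_nil_cons s M h⟩
  | cons y r ih =>
    intro M s h
    cases s with
    | nil => exact absurd (h (y :: r) (Multiset.mem_cons_self _ _)) (by simp)
    | cons c s =>
      obtain ⟨t', M', h1, h⟩ := h
      rcases Multiset.cons_eq_cons.1 h1 with ⟨h2, h3⟩ | ⟨-, N, h3, h4⟩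
      · rw [List.cons_eq_cons] at h2
        obtain ⟨rfl, rfl⟩ := h2
        subst h3
        rcases ih M s h with ⟨s', rfl, hs'⟩ | ⟨p, y', r', x, q, s'', rfl, rfl, hx⟩
        · exact Or.inl ⟨s', rfl, hs'⟩
        · exact Or.inr ⟨y :: p, y', r', x, q, s'', rfl, rfl, hx⟩
      · exact Or.inr ⟨[], y, r, c, t', s, rfl, rfl, by rw [h3]; exact Multiset.mem_cons_self _ _⟩

lemma cons_lt {a b : ℕ} (h : a < b) (s t : List ℕ) : a :: s < b :: t :=
  List.Lex.rel h

lemma append_lt (p : List ℕ) {s t : List ℕ} (h : s < t) : p ++ s < p ++ t := by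
  induction p with
  | nil => exact h
  | cons a p ih => exact List.Lex.cons ih

lemma append_le (p : List ℕ) {s t : List ℕ} (h : s ≤ t) : p ++ s ≤ p ++ t := by
  rcases h.lt_or_eq with h | h
  · exact (append_lt p h).le
  · rw [h]

lemma le_of_append_le (p : List ℕ) {s t : List ℕ} (h : p ++ s ≤ p ++ t) : s ≤ t := by
  by_contra hlt
  exact absurd h (not_le.2 (append_lt p (not_le.1 hlt)))

/-- every shuffle is at least some concatenation -/
lemma exists_arr : ∀ (n : ℕ) (M : Multiset (List ℕ)), M.card = n → (∀ w ∈ M, Dom w) →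
    ∀ s, Shuf s M → ∃ L : List (List ℕ), (L : Multiset (List ℕ)) = M ∧ L.flatten ≤ s := by
  intro n
  induction n with
  | zero =>
    intro M hM _ s _
    rw [Multiset.card_eq_zero] at hM
    subst hM
    refine ⟨[], rfl, ?_⟩
    cases s with
    | nil => exact le_refl _
    | cons a s => exact le_of_lt (List.Lex.nil)
  | succ n ih =>
    intro M hM hD s hs
    cases s with
    | nil =>
      obtain ⟨w, hw⟩ := Multiset.card_pos_iff_exists_mem.1 (by rw [hM]; exact Nat.succ_pos n)
      exact absurd (hs w hw) (hD w hw).ne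
    | cons c s =>
      obtain ⟨t, M', rfl, hs⟩ := hs
      have hct : Dom (c :: t) := hD _ (Multiset.mem_cons_self _ _)
      have hD' : ∀ w ∈ M', Dom w := fun w hw => hD w (Multiset.mem_cons_of_mem hw)
      rcases block t M' s hs with ⟨s', rfl, hs'⟩ | ⟨p, y, r, x, q, s'', rfl, rfl, hx⟩
      · obtain ⟨L, hL, hLs⟩ := ih M' (by
          rw [Multiset.card_cons] at hM
          omega) hD' s' hs'
        refine ⟨(c :: t) :: L, by rw [← Multiset.cons_coe, hL], ?_⟩
        rw [List.flatten_cons]
        exact append_le (c :: t) hLs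
      · have hyc : y < c := hct y (by simp)
        rcases lt_or_ge y x with hyx | hyx
        · refine ⟨(c :: (p ++ y :: r)) :: M'.toList, by rw [← Multiset.cons_coe, Multiset.coe_toList], ?_⟩
          rw [List.flatten_cons]
          have h1 : (c :: (p ++ y :: r)) ++ M'.toList.flatten =
              (c :: p) ++ (y :: (r ++ M'.toList.flatten)) := by simp
          have h2 : c :: (p ++ x :: s'') = (c :: p) ++ (x :: s'') := by simp
          rw [h1, h2]
          exact (append_lt (c :: p) (cons_lt hyx _ _)).le
        · obtain ⟨N, rfl⟩ := Multiset.exists_cons_of_mem hx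
          refine ⟨(x :: q) :: ((c :: (p ++ y :: r)) ::ₘ N).toList, ?_, ?_⟩
          · rw [← Multiset.cons_coe, Multiset.coe_toList, Multiset.cons_swap]
          · rw [List.flatten_cons, List.cons_append]
            exact (cons_lt (lt_of_le_of_lt hyx hyc) _ _).le

/-- the concatenation is minimal among all orders -/
def Mn (L : List (List ℕ)) : Prop := ∀ L' : List (List ℕ), L'.Perm L → L.flatten ≤ L'.flatten

lemma Mn.tail {l : List ℕ} {L : List (List ℕ)} (h : Mn (l :: L)) : Mn L := by
  intro L' hL'
  have h1 := h (l :: L') (hL'.cons l)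
  rw [List.flatten_cons, List.flatten_cons] at h1
  exact le_of_append_le l h1

lemma Mn.head {a b : ℕ} {u v : List ℕ} {L : List (List ℕ)} (h : Mn ((a :: u) :: (b :: v) :: L)) :
    a ≤ b := by
  by_contra hlt
  have h1 := h ((b :: v) :: (a :: u) :: L) (List.Perm.swap _ _ _)
  rw [List.flatten_cons, List.flatten_cons, List.cons_append, List.cons_append] at h1
  exact absurd h1 (not_le.2 (cons_lt (not_le.1 hlt) _ _))

lemma Dom.flatten_ne {l : List ℕ} (h : Dom l) (L : List (List ℕ)) : (l :: L).flatten ≠ [] := by
  cases l with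
  | nil => exact absurd h id
  | cons a l => simp

lemma uniq_aux {l l' a' : List ℕ} {L : List (List ℕ)} (hl : Dom l) (hl' : Dom l') (hL : ∀ w ∈ L, Dom w)
    (hm : Mn (l :: L)) (F : List ℕ) (h1 : l' = l ++ a') (h2 : L.flatten = a' ++ F) : a' = [] := by
  cases a' with
  | nil => rfl
  | cons z a' =>
    exfalso
    cases l with
    | nil => exact hl
    | cons a u =>
      subst h1
      have h3 : z < a := hl' z (by simp)
      cases L with
      | nil => simp at h2
      | cons m L =>
        cases m with
        | nil => exact absurd (hL [] List.mem_cons_self) id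
        | cons b v =>
          have h4 := hm.head
          rw [List.flatten_cons, List.cons_append, List.cons_append, List.cons_eq_cons] at h2
          omega

lemma uniq : ∀ (L L' : List (List ℕ)), (∀ w ∈ L, Dom w) → (∀ w ∈ L', Dom w) → Mn L → Mn L' →
    L.flatten = L'.flatten → L = L' := by
  intro L
  induction L with
  | nil =>
    intro L' _ hL' _ _ h
    cases L' with
    | nil => rfl
    | cons l' L' => exact absurd h.symm ((hL' l' List.mem_cons_self).flatten_ne L')
  | cons l L ih =>
    intro L' hL hL' hm hm' h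
    cases L' with
    | nil => exact absurd h ((hL l List.mem_cons_self).flatten_ne L)
    | cons l' L' =>
      have hl := hL l List.mem_cons_self
      have hl' := hL' l' List.mem_cons_self
      have hLt : ∀ w ∈ L, Dom w := fun w hw => hL w (List.mem_cons_of_mem _ hw)
      have hLt' : ∀ w ∈ L', Dom w := fun w hw => hL' w (List.mem_cons_of_mem _ hw)
      rw [List.flatten_cons, List.flatten_cons] at h
      rcases List.append_eq_append_iff.1 h with ⟨a', h1, h2⟩ | ⟨c', h1, h2⟩
      · have h3 := uniq_aux hl hl' hLt hm _ h1 h2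
        subst h3
        rw [List.append_nil] at h1
        rw [List.nil_append] at h2
        rw [h1, ih L' hLt hLt' hm.tail hm'.tail h2]
      · have h3 := uniq_aux hl' hl hLt' hm' _ h1 h2
        subst h3
        rw [List.append_nil] at h1
        rw [List.nil_append] at h2
        rw [h1, ih L' hLt hLt' hm.tail hm'.tail h2.symm]

/-- the total length -/
def tl (M : List (List ℕ)) : ℕ := (M.map List.length).sum

lemma tl_perm {M N : List (List ℕ)} (h : M.Perm N) : tl M = tl N := (h.map _).sum_eq

lemma length_flatten' (M : List (List ℕ)) : M.flatten.length = tl M := List.length_flatten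

/-- **linear independence of the products** -/
theorem indep (T : Finset (List (List ℕ))) (hT : ∀ M ∈ T, ∀ w ∈ M, Dom w)
    (hinj : ∀ M ∈ T, ∀ N ∈ T, M.Perm N → M = N) (c : List (List ℕ) → ℤ)
    (h0 : ∀ w, ∑ M ∈ T, c M * ((stil M).countP (· = w) : ℤ) = 0) : ∀ M ∈ T, c M = 0 := by
  classical
  by_contra hne
  push Not at hne
  set T1 := T.filter fun M => c M ≠ 0 with hT1
  have hT1n : T1.Nonempty := by
    obtain ⟨M, hM, hc⟩ := hne
    exact ⟨M, Finset.mem_filter.2 ⟨hM, hc⟩⟩
  obtain ⟨M0, hM0, hmax⟩ := Finset.exists_max_image T1 tl hT1n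
  set T2 := T1.filter fun M => tl M = tl M0 with hT2
  set S : Finset (List ℕ) := T2.biUnion fun M => (M.permutations.map List.flatten).toFinset with hS
  have hSmem : ∀ s, s ∈ S ↔ ∃ M ∈ T2, ∃ L : List (List ℕ), L.Perm M ∧ L.flatten = s := by
    intro s
    rw [hS, Finset.mem_biUnion]
    refine exists_congr fun M => and_congr_right fun _ => ?_
    rw [List.mem_toFinset, List.mem_map]
    exact exists_congr fun L => by rw [List.mem_permutations]
  have hSn : S.Nonempty := ⟨M0.flatten, (hSmem _).2
    ⟨M0, Finset.mem_filter.2 ⟨hM0, rfl⟩, M0, List.Perm.refl _, rfl⟩⟩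
  obtain ⟨M1, hM1, L1, hL1, hw1⟩ := (hSmem _).1 (S.min'_mem hSn)
  set w := S.min' hSn with hw
  have hmin : ∀ M ∈ T2, ∀ L : List (List ℕ), L.Perm M → w ≤ L.flatten := fun M hM L hL =>
    S.min'_le _ ((hSmem _).2 ⟨M, hM, L, hL, rfl⟩)
  have hM1' : M1 ∈ T := (Finset.mem_filter.1 (Finset.mem_filter.1 hM1).1).1
  have hcM1 : c M1 ≠ 0 := (Finset.mem_filter.1 (Finset.mem_filter.1 hM1).1).2
  have htl1 : tl M1 = tl M0 := (Finset.mem_filter.1 hM1).2
  have hwlen : w.length = tl M0 := by
    rw [← hw1, length_flatten', tl_perm hL1, htl1]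
  have hmn1 : Mn L1 := by
    intro L' hL'
    rw [hw1]
    exact hmin M1 hM1 L' (hL'.trans hL1)
  have hD1 : ∀ v ∈ L1, Dom v := fun v hv => hT M1 hM1' v (hL1.mem_iff.1 hv)
  have hsum := h0 w
  rw [Finset.sum_eq_single_of_mem M1 hM1'] at hsum
  · have hcount : (stil M1).countP (· = w) ≠ 0 := by
      intro h
      rw [List.countP_eq_zero] at h
      have h1 : w ∈ stil M1 := by
        apply stil_of_shuf
        have h2 : (M1 : Multiset (List ℕ)) = L1 := Multiset.coe_eq_coe.2 hL1.symm
        rw [h2, ← hw1]
        exact shuf_flatten L1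
      exact absurd (h w h1) (by simp)
    rcases mul_eq_zero.1 hsum with h | h
    · exact hcM1 h
    · exact hcount (by exact_mod_cast h)
  · intro M hM hne1
    by_cases hc : c M = 0
    · rw [hc, zero_mul]
    · have h1 : (stil M).countP (· = w) = 0 := by
        rw [List.countP_eq_zero]
        intro s hs h
        rw [decide_eq_true_eq] at h
        subst h
        have hMT1 : M ∈ T1 := Finset.mem_filter.2 ⟨hM, hc⟩
        have h2 := stil_length M _ hs
        have h3 := hmax M hMT1
        have h4 : tl M = tl M0 := by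
          have : w.length ≤ tl M := h2
          omega
        have h5 : w.length = (M.map List.length).sum := by
          rw [hwlen, ← h4]
          rfl
        have hMT2 : M ∈ T2 := Finset.mem_filter.2 ⟨hMT1, h4⟩
        obtain ⟨L, hL, hLw⟩ := exists_arr _ (M : Multiset (List ℕ)) rfl (fun v hv => hT M hM v hv) w
          (shuf_of_stil M w hs h5)
        have hLM : L.Perm M := Multiset.coe_eq_coe.1 hL
        have hLw' : L.flatten = w := le_antisymm hLw (hmin M hMT2 L hLM)
        have hmn : Mn L := by
          intro L' hL'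
          rw [hLw']
          exact hmin M hMT2 L' (hL'.trans hLM)
        have h6 := uniq L L1 (fun v hv => hT M hM v (hLM.mem_iff.1 hv)) hD1 hmn hmn1
          (hLw'.trans hw1.symm)
        subst h6
        exact hne1 (hinj M hM M1 hM1' (hLM.symm.trans hL1))
      rw [h1, Nat.cast_zero, mul_zero]

end Pool.Agent.X231.DF
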